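import Pool.Agent.Helper13.FR.Stmts

/-! MP_7a8f48_an: module UNI, sums over the blocks. -/

set_option autoImplicit false

open Finset Filter
open scoped ComplexConjugate

namespace Pool.Agent.Helper13.FR

open Pool.Agent.Helper16.MD (ee MS FF nu)

/-- the bound of `BS` -/
theorem uni_main (n Λ a : ℕ) (φ G : ℕ → ℂ) (hn : 1 ≤ n) (hL : 1 ≤ Λ)
    (hb : ∀ x, ‖φ x‖ ≤ 1 ∧ ‖G x‖ ≤ 1) :
    ∃ ω : ℕ → ℂ, (∀ t, ‖ω t‖ ≤ 1) ∧
      ∀ N : ℕ, BS n Λ a φ G N ≤ ‖MS (FF n Λ a φ G ω) N‖ + 2 * ((n * Λ : ℕ) : ℝ) := by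
  classical
  have hD : 0 < n * Λ := Nat.mul_pos hn hL
  set D := n * Λ with hDdef
  set f : ℕ → ℂ := fun x => ((ArithmeticFunction.moebius x : ℤ) : ℂ) * (φ x * G ((x + a) / n))
    with hf
  have hf1 : ∀ x, ‖f x‖ ≤ 1 := by
    intro x
    rw [hf]
    dsimp only
    rw [norm_mul, norm_mul]
    have h1 : ‖((ArithmeticFunction.moebius x : ℤ) : ℂ)‖ ≤ 1 := by
      rw [Complex.norm_intCast]
      exact_mod_cast ArithmeticFunction.abs_moebius_le_one
    have h2 : ‖φ x‖ * ‖G ((x + a) / n)‖ ≤ 1 :=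
      mul_le_one₀ (hb x).1 (norm_nonneg _) (hb _).2
    exact mul_le_one₀ h1 (by positivity) h2
  set B : ℕ → ℂ := fun t => ∑ x ∈ (Icc 1 ((t + 1) * D)).filter (fun x => (x + a) / D = t), f x
    with hB
  set ω : ℕ → ℂ := fun t => if B t = 0 then 1 else conj (B t) / (‖B t‖ : ℂ) with hω
  have hω1 : ∀ t, ‖ω t‖ ≤ 1 := by
    intro t
    rw [hω]
    dsimp only
    split_ifs with h
    · simp
    · rw [norm_div, Complex.norm_conj, Complex.norm_real, norm_norm]
      exact div_self_le_one _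
  have hω2 : ∀ t, ω t * B t = (‖B t‖ : ℂ) := by
    intro t
    rw [hω]
    dsimp only
    split_ifs with h
    · rw [h]
      simp
    · have h0 : (‖B t‖ : ℂ) ≠ 0 := by
        rw [Ne, Complex.ofReal_eq_zero, norm_eq_zero]
        exact h
      rw [div_mul_eq_mul_div, mul_comm, Complex.mul_conj', div_eq_iff h0]
      ring
  refine ⟨ω, hω1, ?_⟩
  intro N
  set A : ℕ → ℂ := fun t => ∑ x ∈ (Icc 1 N).filter (fun x => (x + a) / D = t), f x with hA
  set T : ℕ := (N + a) / D with hT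
  have hTm : T ∈ range (N + a + 1) := by
    rw [mem_range, hT]
    exact Nat.lt_succ_of_le (Nat.div_le_self _ _)
  have hBS : BS n Λ a φ G N = ∑ t ∈ range (N + a + 1), ‖A t‖ := rfl
  have hMS : MS (FF n Λ a φ G ω) N = ∑ t ∈ range (N + a + 1), ω t * A t := by
    unfold MS FF
    rw [← sum_fiberwise_of_maps_to (s := Icc 1 N) (t := range (N + a + 1))
      (g := fun x => (x + a) / D)]
    · refine sum_congr rfl fun t _ => ?_
      rw [hA]
      dsimp only
      rw [mul_sum]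
      refine sum_congr rfl fun x hx => ?_
      have hxt := (mem_filter.1 hx).2
      rw [← hDdef, hxt, hf]
      dsimp only
      ring
    · intro x hx
      have := (mem_Icc.1 hx).2
      rw [mem_range]
      exact lt_of_le_of_lt (Nat.div_le_self _ _) (by omega)
  -- complete blocks
  have hlt : ∀ t, t < T → A t = B t := by
    intro t ht
    rw [hA, hB]
    dsimp only
    refine sum_congr ?_ fun _ _ => rfl
    ext x
    rw [mem_filter, mem_filter, mem_Icc, mem_Icc]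
    constructor
    · rintro ⟨⟨h1, _⟩, h3⟩
      refine ⟨⟨h1, ?_⟩, h3⟩
      have h4 : x + a < (t + 1) * D := by
        rw [← Nat.div_lt_iff_lt_mul hD, h3]
        exact Nat.lt_succ_self t
      omega
    · rintro ⟨⟨h1, _⟩, h3⟩
      refine ⟨⟨h1, ?_⟩, h3⟩
      have h4 : x + a < (t + 1) * D := by
        rw [← Nat.div_lt_iff_lt_mul hD, h3]
        exact Nat.lt_succ_self t
      have h5 : (t + 1) * D ≤ T * D := Nat.mul_le_mul_right _ ht
      have h6 : T * D ≤ N + a := Nat.div_mul_le_self _ _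
      omega
  have hgt : ∀ t, T < t → A t = 0 := by
    intro t ht
    rw [hA]
    dsimp only
    rw [filter_eq_empty_iff.2, sum_empty]
    intro x hx h
    have h1 := (mem_Icc.1 hx).2
    have h2 : (x + a) / D ≤ T := Nat.div_le_div_right (by omega)
    omega
  have hAT : ‖A T‖ ≤ (D : ℝ) := by
    rw [hA]
    dsimp only
    refine (norm_sum_le _ _).trans ?_
    refine (sum_le_sum fun x _ => hf1 x).trans ?_
    rw [sum_const, nsmul_eq_mul, mul_one]
    have hc : ((Icc 1 N).filter (fun x => (x + a) / D = T)).card ≤ (range D).card := by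
      refine card_le_card_of_injOn (fun x => (x + a) % D) ?_ ?_
      · intro x _
        exact mem_coe.2 (mem_range.2 (Nat.mod_lt _ hD))
      · intro x hx y hy hxy
        have h1 := (mem_filter.1 (mem_coe.1 hx)).2
        have h2 := (mem_filter.1 (mem_coe.1 hy)).2
        have h3 := Nat.div_add_mod (x + a) D
        have h4 := Nat.div_add_mod (y + a) D
        have hxy' : (x + a) % D = (y + a) % D := hxy
        rw [h1] at h3
        rw [h2] at h4
        omega
    rw [card_range] at hc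
    exact_mod_cast hc
  have hne : ∀ t ∈ (range (N + a + 1)).erase T, ω t * A t = (‖A t‖ : ℂ) := by
    intro t ht
    have h1 := (mem_erase.1 ht).1
    rcases lt_or_gt_of_ne h1 with h | h
    · rw [hlt t h, hω2]
    · rw [hgt t h]
      simp
  have hsum : (∑ t ∈ (range (N + a + 1)).erase T, ω t * A t) =
      ((∑ t ∈ (range (N + a + 1)).erase T, ‖A t‖ : ℝ) : ℂ) := by
    rw [sum_congr rfl hne, Complex.ofReal_sum]
  have hn0 : 0 ≤ ∑ t ∈ (range (N + a + 1)).erase T, ‖A t‖ := sum_nonneg fun _ _ => norm_nonneg _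
  have e1 : BS n Λ a φ G N = (∑ t ∈ (range (N + a + 1)).erase T, ‖A t‖) + ‖A T‖ := by
    rw [hBS, sum_erase_add _ _ hTm]
  have e2 : MS (FF n Λ a φ G ω) N =
      ((∑ t ∈ (range (N + a + 1)).erase T, ‖A t‖ : ℝ) : ℂ) + ω T * A T := by
    rw [hMS, ← hsum, sum_erase_add _ _ hTm]
  have e3 : ∑ t ∈ (range (N + a + 1)).erase T, ‖A t‖ ≤
      ‖MS (FF n Λ a φ G ω) N‖ + ‖ω T * A T‖ := by
    have h1 : ((∑ t ∈ (range (N + a + 1)).erase T, ‖A t‖ : ℝ) : ℂ) =
        MS (FF n Λ a φ G ω) N - ω T * A T := by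
      rw [e2]
      ring
    have h2 : ‖((∑ t ∈ (range (N + a + 1)).erase T, ‖A t‖ : ℝ) : ℂ)‖ =
        ∑ t ∈ (range (N + a + 1)).erase T, ‖A t‖ := by
      rw [Complex.norm_real, Real.norm_of_nonneg hn0]
    rw [← h2, h1]
    exact norm_sub_le _ _
  have e4 : ‖ω T * A T‖ ≤ ‖A T‖ := by
    rw [norm_mul]
    exact mul_le_of_le_one_left (norm_nonneg _) (hω1 T)
  rw [e1]
  linarith

theorem st_UNI (h : ST_TSC) : ST_UNI := by
  intro η hη
  obtain ⟨n₀, H⟩ := h (η / 2) (by linarith)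
  refine ⟨max n₀ 1, fun n hn => ?_⟩
  obtain ⟨Λ₀, H2⟩ := H n (le_trans (le_max_left _ _) hn)
  refine ⟨max Λ₀ 1, fun Λ a φ G hΛ hb hφ hG => ?_⟩
  have hn1 : 1 ≤ n := le_trans (le_max_right _ _) hn
  have hL1 : 1 ≤ Λ := le_trans (le_max_right _ _) hΛ
  obtain ⟨ω, hω, hmain⟩ := uni_main n Λ a φ G hn1 hL1 hb
  have h3 := H2 Λ a φ G ω (le_trans (le_max_left _ _) hΛ)
    (fun x => ⟨(hb x).1, (hb x).2, hω x⟩) hφ hG
  have h4 : ∀ᶠ N : ℕ in atTop, 4 * ((n * Λ : ℕ) : ℝ) / η ≤ (N : ℝ) :=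
    tendsto_natCast_atTop_atTop.eventually_ge_atTop _
  filter_upwards [h3, h4] with N hN hN2
  rw [div_le_iff₀ hη] at hN2
  have := hmain N
  linarith

end Pool.Agent.Helper13.FR
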