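import Pool.Agent.Helper42.FR.Stmts

set_option autoImplicit false

namespace Pool.Agent.Helper85.FR

open Matrix Pool.Agent.Helper81.Fmr Pool.Agent.Helper42.FR

universe u

theorem rk_key {F : Type u} [Field F] {b : ℕ} (A B P Q : Matrix (Fin b) (Fin b) F) :
    A.rank + B.rank ≤ (A + B).rank + (B * Q).rank + (A - A * Q).rank + (A - P * A).rank +
      (P * B).rank := by
  have e := Submodule.finrank_sup_add_finrank_inf_eq (LinearMap.range A.mulVecLin)
    (LinearMap.range B.mulVecLin)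
  have e1 : Module.finrank F ↥(LinearMap.range A.mulVecLin ⊓ LinearMap.range B.mulVecLin) ≤
      (A - P * A).rank + (P * B).rank := by
    refine le_trans (Submodule.finrank_mono (t := LinearMap.range (A - P * A).mulVecLin ⊔
      LinearMap.range (P * B).mulVecLin) ?_) (Submodule.finrank_add_le_finrank_add_finrank _ _)
    rintro v ⟨⟨u, hu⟩, ⟨w, hw⟩⟩
    have : v = (A - P * A).mulVecLin u + (P * B).mulVecLin w := by
      simp only [mulVecLin_apply] at hu hw ⊢
      rw [sub_mulVec, ← mulVec_mulVec, ← mulVec_mulVec, hu, hw]; abel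
    rw [this]
    exact Submodule.add_mem_sup (LinearMap.mem_range_self _ _) (LinearMap.mem_range_self _ _)
  have e2 : Module.finrank F ↥(LinearMap.range A.mulVecLin ⊔ LinearMap.range B.mulVecLin) ≤
      ((A + B).rank + (B * Q).rank) + (A - A * Q).rank := by
    refine le_trans (Submodule.finrank_mono (t := (LinearMap.range (A + B).mulVecLin ⊔
      LinearMap.range (B * Q).mulVecLin) ⊔ LinearMap.range (A - A * Q).mulVecLin) ?_)
      (le_trans (Submodule.finrank_add_le_finrank_add_finrank _ _)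
        (Nat.add_le_add_right (Submodule.finrank_add_le_finrank_add_finrank _ _) _))
    have hA : LinearMap.range A.mulVecLin ≤ (LinearMap.range (A + B).mulVecLin ⊔
      LinearMap.range (B * Q).mulVecLin) ⊔ LinearMap.range (A - A * Q).mulVecLin := by
      rintro _ ⟨u, rfl⟩
      have : A.mulVecLin u = ((A + B).mulVecLin (Q *ᵥ u) + (B * Q).mulVecLin (-u)) +
          (A - A * Q).mulVecLin u := by
        simp only [mulVecLin_apply]
        rw [add_mulVec, sub_mulVec, ← mulVec_mulVec, ← mulVec_mulVec, mulVec_neg, mulVec_neg]; abel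
      rw [this]
      exact Submodule.add_mem_sup (Submodule.add_mem_sup (LinearMap.mem_range_self _ _)
        (LinearMap.mem_range_self _ _)) (LinearMap.mem_range_self _ _)
    refine sup_le hA ?_
    rintro _ ⟨u, rfl⟩
    have : B.mulVecLin u = (A + B).mulVecLin u - A.mulVecLin u := by
      simp only [mulVecLin_apply]
      rw [add_mulVec]; abel
    rw [this]
    exact Submodule.sub_mem _ (Submodule.mem_sup_left (Submodule.mem_sup_left
      (LinearMap.mem_range_self _ _))) (hA (LinearMap.mem_range_self _ _))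
  simp only [Matrix.rank] at e1 e2 ⊢
  omega

theorem rk_add {F : Type u} [Field F] {b : ℕ} (A B : Matrix (Fin b) (Fin b) F) {x y : ℕ}
    (hA : A.rank ≤ x) (hB : B.rank ≤ y) : (A + B).rank ≤ x + y :=
  (rank_add_le' A B).trans (Nat.add_le_add hA hB)

theorem st_OR (F : Type u) [Field F] : ST_OR F := by
  refine ⟨100, ?_⟩
  intro b c E f h1 h2 h3 h4
  have hl : ∀ (X Y : Matrix (Fin b) (Fin b) F) {x : ℕ}, Y.rank ≤ x → (X * Y).rank ≤ x :=
    fun X Y x h => (Matrix.rank_mul_le_right _ _).trans h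
  have hr : ∀ (X Y : Matrix (Fin b) (Fin b) F) {x : ℕ}, X.rank ≤ x → (X * Y).rank ≤ x :=
    fun X Y x h => (Matrix.rank_mul_le_left _ _).trans h
  have h2' : ∀ i j, i ≠ j → (E i * E j).rank ≤ c := fun i j hij => by
    have := h2 i j hij; unfold AE at this; rwa [sub_zero] at this
  have h1' : ∀ i, (E i - E i * E i).rank ≤ c := fun i => by
    have := h1 i; unfold AE at this
    have e : E i - E i * E i = (-1) * (E i * E i - E i) := by noncomm_ring
    rw [e]; exact hl _ _ this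
  have h4' : ∀ i, (E i * f - f * E i).rank ≤ c := fun i => h4 i
  -- the sum is `1`
  have hs : (1 - (E 0 + E 1 + E 2 + E 3 + E 4)).rank ≤ 11 * c := by
    have h3' : ((1 - E 0) * (1 - E 1) * (1 - E 2) * (1 - E 3) * (1 - E 4)).rank ≤ c := by
      have := h3; unfold AE at this; rwa [sub_zero] at this
    have e : 1 - (E 0 + E 1 + E 2 + E 3 + E 4) =
        (1 - E 0) * (1 - E 1) * (1 - E 2) * (1 - E 3) * (1 - E 4) +
        (E 0 * E 1) * (-((1 - E 2) * (1 - E 3) * (1 - E 4))) +
        (E 0 * E 2) * (-((1 - E 3) * (1 - E 4))) +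
        (E 1 * E 2) * (-((1 - E 3) * (1 - E 4))) +
        (E 0 * E 3) * (-(1 - E 4)) + (E 1 * E 3) * (-(1 - E 4)) + (E 2 * E 3) * (-(1 - E 4)) +
        (E 0 * E 4) * (-1) + (E 1 * E 4) * (-1) + (E 2 * E 4) * (-1) + (E 3 * E 4) * (-1) := by
      noncomm_ring
    rw [e]
    refine (rk_add _ _ (rk_add _ _ (rk_add _ _ (rk_add _ _ (rk_add _ _ (rk_add _ _ (rk_add _ _
      (rk_add _ _ (rk_add _ _ (rk_add _ _ h3' (hr _ _ (h2' 0 1 (by decide))))
      (hr _ _ (h2' 0 2 (by decide)))) (hr _ _ (h2' 1 2 (by decide))))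
      (hr _ _ (h2' 0 3 (by decide)))) (hr _ _ (h2' 1 3 (by decide))))
      (hr _ _ (h2' 2 3 (by decide)))) (hr _ _ (h2' 0 4 (by decide))))
      (hr _ _ (h2' 1 4 (by decide)))) (hr _ _ (h2' 2 4 (by decide))))
      (hr _ _ (h2' 3 4 (by decide)))).trans (le_of_eq (by ring))
  have hsum : ((1 - (E 0 + E 1 + E 2 + E 3 + E 4)) * f).rank ≤ 11 * c := hr _ _ hs
  have a1 : f.rank ≤ (E 0 * f + E 1 * f + E 2 * f + E 3 * f + E 4 * f).rank + 11 * c := by
    have : f = (E 0 * f + E 1 * f + E 2 * f + E 3 * f + E 4 * f) +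
      (1 - (E 0 + E 1 + E 2 + E 3 + E 4)) * f := by noncomm_ring
    calc f.rank = ((E 0 * f + E 1 * f + E 2 * f + E 3 * f + E 4 * f) +
      (1 - (E 0 + E 1 + E 2 + E 3 + E 4)) * f).rank := by rw [← this]
      _ ≤ _ := rk_add _ _ le_rfl hsum
  have a2 : (E 0 * f + E 1 * f + E 2 * f + E 3 * f + E 4 * f).rank ≤ f.rank + 11 * c := by
    have : E 0 * f + E 1 * f + E 2 * f + E 3 * f + E 4 * f = f +
      (-1) * ((1 - (E 0 + E 1 + E 2 + E 3 + E 4)) * f) := by noncomm_ring
    rw [this]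
    exact rk_add _ _ le_rfl (hl _ _ hsum)
  -- the step
  have hq1 : ∀ i, (E i * f - E i * f * E i).rank ≤ 2 * c := fun i => by
    have : E i * f - E i * f * E i = (E i - E i * E i) * f + E i * (E i * f - f * E i) := by
      noncomm_ring
    rw [this]
    exact (rk_add _ _ (hr _ _ (h1' i)) (hl _ _ (h4' i))).trans (le_of_eq (by ring))
  have hp1 : ∀ i, (E i * f - E i * (E i * f)).rank ≤ c := fun i => by
    have : E i * f - E i * (E i * f) = (E i - E i * E i) * f := by noncomm_ring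
    rw [this]
    exact hr _ _ (h1' i)
  have hq2 : ∀ i j, i ≠ j → (E i * f * E j).rank ≤ 2 * c := fun i j hij => by
    have : E i * f * E j = (E i * E j) * f + E i * ((-1) * (E j * f - f * E j)) := by
      noncomm_ring
    rw [this]
    exact (rk_add _ _ (hr _ _ (h2' i j hij)) (hl _ _ (hl _ _ (h4' j)))).trans (le_of_eq (by ring))
  have hp2 : ∀ i j, i ≠ j → (E j * (E i * f)).rank ≤ c := fun i j hij => by
    rw [← Matrix.mul_assoc]
    exact hr _ _ (h2' j i hij.symm)
  have b1 := rk_key (E 1 * f) (E 0 * f) (E 1) (E 1)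
  have b2 := rk_key (E 2 * f) (E 0 * f + E 1 * f) (E 2) (E 2)
  have b3 := rk_key (E 3 * f) (E 0 * f + E 1 * f + E 2 * f) (E 3) (E 3)
  have b4 := rk_key (E 4 * f) (E 0 * f + E 1 * f + E 2 * f + E 3 * f) (E 4) (E 4)
  have c1 : (E 1 * f + E 0 * f) = E 0 * f + E 1 * f := by abel
  have c2 : (E 2 * f + (E 0 * f + E 1 * f)) = E 0 * f + E 1 * f + E 2 * f := by abel
  have c3 : (E 3 * f + (E 0 * f + E 1 * f + E 2 * f)) = E 0 * f + E 1 * f + E 2 * f + E 3 * f := by
    abel
  have c4 : (E 4 * f + (E 0 * f + E 1 * f + E 2 * f + E 3 * f)) =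
      E 0 * f + E 1 * f + E 2 * f + E 3 * f + E 4 * f := by abel
  rw [c1] at b1; rw [c2] at b2; rw [c3] at b3; rw [c4] at b4
  have d1 := hq2 0 1 (by decide)
  have d1' := hp2 0 1 (by decide)
  have d2 : ((E 0 * f + E 1 * f) * E 2).rank ≤ 4 * c := by
    rw [Matrix.add_mul]
    exact (rk_add _ _ (hq2 0 2 (by decide)) (hq2 1 2 (by decide))).trans (le_of_eq (by ring))
  have d2' : (E 2 * (E 0 * f + E 1 * f)).rank ≤ 2 * c := by
    rw [Matrix.mul_add]
    exact (rk_add _ _ (hp2 0 2 (by decide)) (hp2 1 2 (by decide))).trans (le_of_eq (by ring))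
  have d3 : ((E 0 * f + E 1 * f + E 2 * f) * E 3).rank ≤ 6 * c := by
    rw [Matrix.add_mul, Matrix.add_mul]
    exact (rk_add _ _ (rk_add _ _ (hq2 0 3 (by decide)) (hq2 1 3 (by decide)))
      (hq2 2 3 (by decide))).trans (le_of_eq (by ring))
  have d3' : (E 3 * (E 0 * f + E 1 * f + E 2 * f)).rank ≤ 3 * c := by
    rw [Matrix.mul_add, Matrix.mul_add]
    exact (rk_add _ _ (rk_add _ _ (hp2 0 3 (by decide)) (hp2 1 3 (by decide)))
      (hp2 2 3 (by decide))).trans (le_of_eq (by ring))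
  have d4 : ((E 0 * f + E 1 * f + E 2 * f + E 3 * f) * E 4).rank ≤ 8 * c := by
    rw [Matrix.add_mul, Matrix.add_mul, Matrix.add_mul]
    exact (rk_add _ _ (rk_add _ _ (rk_add _ _ (hq2 0 4 (by decide)) (hq2 1 4 (by decide)))
      (hq2 2 4 (by decide))) (hq2 3 4 (by decide))).trans (le_of_eq (by ring))
  have d4' : (E 4 * (E 0 * f + E 1 * f + E 2 * f + E 3 * f)).rank ≤ 4 * c := by
    rw [Matrix.mul_add, Matrix.mul_add, Matrix.mul_add]
    exact (rk_add _ _ (rk_add _ _ (rk_add _ _ (hp2 0 4 (by decide)) (hp2 1 4 (by decide)))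
      (hp2 2 4 (by decide))) (hp2 3 4 (by decide))).trans (le_of_eq (by ring))
  have g1 := hq1 1
  have g2 := hq1 2
  have g3 := hq1 3
  have g4 := hq1 4
  have k1 := hp1 1
  have k2 := hp1 2
  have k3 := hp1 3
  have k4 := hp1 4
  have s1 : (E 0 * f + E 1 * f + E 2 * f + E 3 * f + E 4 * f).rank ≤
      (E 0 * f).rank + (E 1 * f).rank + (E 2 * f).rank + (E 3 * f).rank + (E 4 * f).rank :=
    rk_add _ _ (rk_add _ _ (rk_add _ _ (rk_add _ _ le_rfl le_rfl) le_rfl) le_rfl) le_rfl
  have hfin : ∑ i, (E i * f).rank =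
      (E 0 * f).rank + (E 1 * f).rank + (E 2 * f).rank + (E 3 * f).rank + (E 4 * f).rank := by
    rw [Fin.sum_univ_five]
  rw [hfin]
  constructor <;> omega

end Pool.Agent.Helper85.FR
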